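import Pool.Agent.Lib_helper99.Transversal.Indexed

set_option autoImplicit false

namespace Pool.Agent.Results.MP_05faf0_co.Asymptotics

open Filter Topology

/-- Some line `{p + t v : t real}` (`v ≠ 0`) of the plane meets every set of the collection `G`. -/
def HasLineTransversal (G : Set (Set (ℝ × ℝ))) : Prop :=
  ∃ p v : ℝ × ℝ, v ≠ 0 ∧ ∀ A ∈ G, ∃ t : ℝ, p + t • v ∈ A

/-- The number `ρ` has the property that defines `ρ(k)`: for every finite family `F` of compact
convex sets in the plane such that each subfamily with at most `k` members has a line transversal,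
some subfamily `G` with `|G| ≥ ρ |F|` has a line transversal. -/
def Admissible (k : ℕ) (ρ : ℝ) : Prop :=
  ∀ F : Finset (Set (ℝ × ℝ)), (∀ A ∈ F, IsCompact A ∧ Convex ℝ A) →
    (∀ G ⊆ F, G.card ≤ k → HasLineTransversal (G : Set (Set (ℝ × ℝ)))) →
    ∃ G ⊆ F, ρ * (F.card : ℝ) ≤ (G.card : ℝ) ∧ HasLineTransversal (G : Set (Set (ℝ × ℝ)))

/-- The optimal fraction `ρ(k)`. -/
noncomputable def rho (k : ℕ) : ℝ := sSup {ρ : ℝ | Admissible k ρ}

/-- The same property for indexed families, in which a set may occur several times. -/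
def AdmissibleIndexed (k : ℕ) (ρ : ℝ) : Prop :=
  ∀ (n : ℕ) (F : Fin n → Set (ℝ × ℝ)), (∀ i, IsCompact (F i) ∧ Convex ℝ (F i)) →
    (∀ I : Finset (Fin n), I.card ≤ k → HasLineTransversal (F '' (I : Set (Fin n)))) →
    ∃ I : Finset (Fin n), ρ * (n : ℝ) ≤ (I.card : ℝ) ∧ HasLineTransversal (F '' (I : Set (Fin n)))

/-- The optimal fraction for indexed families. -/
noncomputable def rhoIndexed (k : ℕ) : ℝ := sSup {ρ : ℝ | AdmissibleIndexed k ρ}

theorem trans_eq (G : Finset (Set (ℝ × ℝ))) :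
    HasLineTransversal (G : Set (Set (ℝ × ℝ))) ↔ Pool.Agent.Lib_helper99.Transversal.Trans G :=
  Iff.rfl

theorem adm_iff (k : ℕ) (ρ : ℝ) :
    Admissible k ρ ↔ Pool.Agent.Lib_helper99.Transversal.Adm k ρ := Iff.rfl

theorem idx_iff (n : ℕ) (F : Fin n → Set (ℝ × ℝ)) (I : Finset (Fin n)) :
    HasLineTransversal (F '' (I : Set (Fin n))) ↔
      ∃ ℓ : Option ℝ × ℝ, ∀ i ∈ I, Pool.Agent.Lib_helper99.Transversal.Hit ℓ (F i) := by
  classical
  have h1 : HasLineTransversal (F '' (I : Set (Fin n))) ↔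
      Pool.Agent.Lib_helper99.Transversal.Trans (I.image F) := by
    rw [← trans_eq, Finset.coe_image]
  rw [h1, Pool.Agent.Lib_helper99.Transversal.trans_iff]
  constructor
  · rintro ⟨ℓ, hℓ⟩
    exact ⟨ℓ, fun i hi => hℓ _ (Finset.mem_image_of_mem F hi)⟩
  · rintro ⟨ℓ, hℓ⟩
    refine ⟨ℓ, fun A hA => ?_⟩
    obtain ⟨i, hi, rfl⟩ := Finset.mem_image.1 hA
    exact hℓ i hi

theorem admIdx_iff (k : ℕ) (ρ : ℝ) :
    AdmissibleIndexed k ρ ↔ Pool.Agent.Lib_helper99.Transversal.AdmIdx k ρ := by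
  unfold AdmissibleIndexed Pool.Agent.Lib_helper99.Transversal.AdmIdx
  simp only [idx_iff]

/-- **Exact asymptotics of the optimal fraction for partial line transversals in the plane.**
For every `k` the largest admissible fraction `ρ(k)` exists, and `(1 - ρ(k)) k / log k → 1`, that
is, `ρ(k) = 1 - (1 + o(1)) (log k) / k`.  The same holds when families with repeated members are
allowed. -/
theorem result :
    (∀ k : ℕ, IsGreatest {ρ : ℝ | Admissible k ρ} (rho k)) ∧
    Tendsto (fun k : ℕ => (1 - rho k) * (k : ℝ) / Real.log k) atTop (𝓝 1) ∧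
    (∀ k : ℕ, IsGreatest {ρ : ℝ | AdmissibleIndexed k ρ} (rhoIndexed k)) ∧
    Tendsto (fun k : ℕ => (1 - rhoIndexed k) * (k : ℝ) / Real.log k) atTop (𝓝 1) := by
  have h1 : ∀ k, rho k = Pool.Agent.Lib_helper99.Transversal.rho k := fun k => rfl
  have h2 : ∀ k, rhoIndexed k = Pool.Agent.Lib_helper99.Transversal.rhoIdx k := by
    intro k
    unfold rhoIndexed Pool.Agent.Lib_helper99.Transversal.rhoIdx
    simp only [admIdx_iff]
  refine ⟨?_, ?_, ?_, ?_⟩
  · intro k
    exact Pool.Agent.Lib_helper99.Transversal.rho_isGreatest k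
  · simp only [h1]
    exact Pool.Agent.Lib_helper99.Transversal.rho_asymp
  · intro k
    rw [h2]
    simp only [admIdx_iff]
    exact Pool.Agent.Lib_helper99.Transversal.rhoIdx_isGreatest k
  · simp only [h2]
    exact Pool.Agent.Lib_helper99.Transversal.rhoIdx_asymp

end Pool.Agent.Results.MP_05faf0_co.Asymptotics
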