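import Pool.Agent.RK68.Lim

set_option autoImplicit false

namespace Pool.Agent.Results.MP_05faf0_co.LowerSix

open Real Pool.Agent.RK68

/-- Some line `{p + t v : t real}` (`v ≠ 0`) of the plane meets every set of the collection `G`. -/
def HasLineTransversal (G : Set (Set (ℝ × ℝ))) : Prop :=
  ∃ p v : ℝ × ℝ, v ≠ 0 ∧ ∀ A ∈ G, ∃ t : ℝ, p + t • v ∈ A

/-- The number `ρ` has the property that defines `ρ(k)`: for every finite family `F` of compact
convex sets in the plane such that each subfamily with at most `k` members has a line transversal,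
some subfamily `G` with `|G| ≥ ρ |F|` has a line transversal. -/
def Admissible (k : ℕ) (ρ : ℝ) : Prop :=
  ∀ F : Finset (Set (ℝ × ℝ)), (∀ A ∈ F, IsCompact A ∧ Convex ℝ A) →
    (∀ G ⊆ F, G.card ≤ k → HasLineTransversal (G : Set (Set (ℝ × ℝ)))) →
    ∃ G ⊆ F, ρ * (F.card : ℝ) ≤ (G.card : ℝ) ∧ HasLineTransversal (G : Set (Set (ℝ × ℝ)))

/-- The optimal fraction `ρ(k)`. -/
noncomputable def rho (k : ℕ) : ℝ := sSup {ρ : ℝ | Admissible k ρ}

theorem transversal_empty : HasLineTransversal ((∅ : Finset (Set (ℝ × ℝ))) : Set (Set (ℝ × ℝ))) :=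
  ⟨0, (1, 0), by simp, by simp⟩

/-- Admissible fractions are at most one. -/
theorem admissible_le_one {k : ℕ} {ρ : ℝ} (hρ : Admissible k ρ) : ρ ≤ 1 := by
  classical
  obtain ⟨G, hG, hcard, -⟩ := hρ {{(0, 0)}}
    (by
      intro A hA
      rw [Finset.mem_singleton] at hA
      subst hA
      exact ⟨isCompact_singleton, convex_singleton _⟩)
    (by
      intro G hG _
      refine ⟨0, (1, 0), by simp, fun A hA => ⟨0, ?_⟩⟩
      have := hG (Finset.mem_coe.mp hA)
      rw [Finset.mem_singleton] at this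
      subst this
      simp only [zero_smul, add_zero, Set.mem_singleton_iff]
      rfl)
  have h1 : G.card ≤ 1 := by
    have := Finset.card_le_card hG
    simpa using this
  rw [Finset.card_singleton, Nat.cast_one, mul_one] at hcard
  have h2 : (G.card : ℝ) ≤ 1 := by exact_mod_cast h1
  linarith

/-- Two thirds is admissible. -/
theorem admissible_two_thirds {k : ℕ} (hk : 6 ≤ k) : Admissible k (2 / 3) := by
  classical
  intro F hF hT
  have hcomp : ∀ A : {A // A ∈ F}, IsCompact A.1 := fun A => (hF A.1 A.2).1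
  have hconv : ∀ A : {A // A ∈ F}, Convex ℝ A.1 := fun A => (hF A.1 A.2).2
  have hne : ∀ A : {A // A ∈ F}, A.1.Nonempty := by
    intro A
    obtain ⟨p, v, -, h⟩ := hT {A.1} (Finset.singleton_subset_iff.mpr A.2) (by
      rw [Finset.card_singleton]; omega)
    obtain ⟨t, ht⟩ := h A.1 (by simp)
    exact ⟨_, ht⟩
  have hT6 : T6 (sysOf (fun A : {A // A ∈ F} => A.1) hcomp hne) := by
    intro f
    obtain ⟨ψ, c, -, h⟩ := Pool.Agent.OPT22.meets_of_trans
      ((Finset.univ.image fun j => (f j).1 : Finset (Set (ℝ × ℝ))) : Set (Set (ℝ × ℝ)))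
      (hT (Finset.univ.image fun j => (f j).1)
        (by
          intro A hA
          obtain ⟨j, -, rfl⟩ := Finset.mem_image.mp hA
          exact (f j).2)
        ((Finset.card_image_le).trans (by simpa using hk)))
    refine ⟨ψ - π / 2, c, fun j => ?_⟩
    have h1 := h (f j).1 (by
      rw [Finset.mem_coe]
      exact Finset.mem_image_of_mem _ (Finset.mem_univ j))
    have h2 := (meets_iff (hcomp (f j)) (hconv (f j)) (hne (f j)) (ψ - π / 2) c).mp
      (by rw [sub_add_cancel]; exact h1)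
    exact h2
  obtain ⟨t, c, hcard⟩ := two_thirds hT6
  rw [Fintype.card_coe] at hcard
  refine ⟨(Finset.univ.filter fun A : {A // A ∈ F} => hS A.1 t ≤ c ∧ hS A.1 (t + π) ≤ -c).image
    Subtype.val, ?_, ?_, ?_⟩
  · intro A hA
    obtain ⟨B, -, rfl⟩ := Finset.mem_image.mp hA
    exact B.2
  · rw [Finset.card_image_of_injective _ Subtype.val_injective]
    have h1 : 2 * F.card ≤ 3 * (Finset.univ.filter fun A : {A // A ∈ F} =>
        hS A.1 t ≤ c ∧ hS A.1 (t + π) ≤ -c).card := hcard
    have h2 : (2 : ℝ) * (F.card : ℝ) ≤ 3 * ((Finset.univ.filter fun A : {A // A ∈ F} =>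
        hS A.1 t ≤ c ∧ hS A.1 (t + π) ≤ -c).card : ℝ) := by exact_mod_cast h1
    linarith
  · apply Pool.Agent.OPT22.trans_of_meets (t + π / 2) c
    intro A hA
    obtain ⟨B, hB, rfl⟩ := Finset.mem_image.mp (Finset.mem_coe.mp hA)
    rw [Finset.mem_filter] at hB
    exact (meets_iff (hcomp B) (hconv B) (hne B) t c).mpr hB.2

theorem rho_isGreatest (k : ℕ) (hk : 6 ≤ k) : IsGreatest {ρ : ℝ | Admissible k ρ} (rho k) := by
  have hne : {ρ : ℝ | Admissible k ρ}.Nonempty := ⟨2 / 3, admissible_two_thirds hk⟩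
  have hbdd : BddAbove {ρ : ℝ | Admissible k ρ} := ⟨1, fun ρ h => admissible_le_one h⟩
  refine ⟨?_, fun ρ hρ => le_csSup hbdd hρ⟩
  intro F hF hT
  classical
  obtain ⟨G, hG, hmax⟩ := (F.powerset.filter
    (fun G : Finset (Set (ℝ × ℝ)) =>
      HasLineTransversal (G : Set (Set (ℝ × ℝ))))).exists_max_image
    (fun G => G.card) ⟨∅, Finset.mem_filter.2 ⟨Finset.empty_mem_powerset _, transversal_empty⟩⟩
  rw [Finset.mem_filter, Finset.mem_powerset] at hG
  refine ⟨G, hG.1, ?_, hG.2⟩
  rcases F.eq_empty_or_nonempty with rfl | hFne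
  · simp
  · have hFpos : (0 : ℝ) < F.card := by exact_mod_cast hFne.card_pos
    rw [← le_div_iff₀ hFpos]
    refine csSup_le hne fun ρ hρ => ?_
    obtain ⟨G', hG'1, hG'2, hG'3⟩ := hρ F hF hT
    rw [le_div_iff₀ hFpos]
    refine hG'2.trans ?_
    exact_mod_cast hmax G' (Finset.mem_filter.2 ⟨Finset.mem_powerset.2 hG'1, hG'3⟩)

/-- **A lower bound for the optimal fraction.** For every `k ≥ 6` the largest admissible fraction
`ρ(k)` exists and `ρ(k) ≥ 2 / 3`. -/
theorem result : ∀ k : ℕ, 6 ≤ k →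
    IsGreatest {ρ : ℝ | Admissible k ρ} (rho k) ∧ 2 / 3 ≤ rho k :=
  fun k hk => ⟨rho_isGreatest k hk, (rho_isGreatest k hk).2 (admissible_two_thirds hk)⟩

end Pool.Agent.Results.MP_05faf0_co.LowerSix
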