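import Pool.Agent.Lib_helper99.Transversal.DataThree
import Pool.Agent.Lib_helper99.Transversal.DataFour
import Pool.Agent.Lib_helper99.Transversal.DataFive

set_option autoImplicit false

namespace Pool.Agent.Results.MP_05faf0_co.SmallK

/-- Some line `{p + t v : t real}` (`v ≠ 0`) of the plane meets every set of the collection `G`. -/
def HasLineTransversal (G : Set (Set (ℝ × ℝ))) : Prop :=
  ∃ p v : ℝ × ℝ, v ≠ 0 ∧ ∀ A ∈ G, ∃ t : ℝ, p + t • v ∈ A

/-- The number `ρ` has the property that defines `ρ(k)`: for every finite family `F` of compact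
convex sets in the plane such that each subfamily with at most `k` members has a line transversal,
some subfamily `G` with `|G| ≥ ρ |F|` has a line transversal. -/
def Admissible (k : ℕ) (ρ : ℝ) : Prop :=
  ∀ F : Finset (Set (ℝ × ℝ)), (∀ A ∈ F, IsCompact A ∧ Convex ℝ A) →
    (∀ G ⊆ F, G.card ≤ k → HasLineTransversal (G : Set (Set (ℝ × ℝ)))) →
    ∃ G ⊆ F, ρ * (F.card : ℝ) ≤ (G.card : ℝ) ∧ HasLineTransversal (G : Set (Set (ℝ × ℝ)))

/-- The optimal fraction `ρ(k)`. -/
noncomputable def rho (k : ℕ) : ℝ := sSup {ρ : ℝ | Admissible k ρ}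

theorem adm_iff (k : ℕ) (ρ : ℝ) :
    Admissible k ρ ↔ Pool.Agent.Lib_helper99.Transversal.Adm k ρ := Iff.rfl

theorem rho_mem (k : ℕ) : Admissible k (rho k) :=
  (Pool.Agent.Lib_helper99.Transversal.rho_isGreatest k).1

/-- **New upper bounds for `ρ(3)`, `ρ(4)` and `ρ(5)`.** For every `k` the largest admissible
fraction `ρ(k)` exists, and `ρ(3) ≤ 7/15`, `ρ(4) ≤ 3/5` and `ρ(5) ≤ 26/37`. -/
theorem result :
    (∀ k : ℕ, IsGreatest {ρ : ℝ | Admissible k ρ} (rho k)) ∧
    rho 3 ≤ 7 / 15 ∧ rho 4 ≤ 3 / 5 ∧ rho 5 ≤ 26 / 37 := by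
  refine ⟨fun k => Pool.Agent.Lib_helper99.Transversal.rho_isGreatest k, ?_, ?_, ?_⟩
  · have := Pool.Agent.Lib_helper99.Transversal.Three.bound ((adm_iff _ _).1 (rho_mem 3))
    linarith
  · have := Pool.Agent.Lib_helper99.Transversal.Four.bound ((adm_iff _ _).1 (rho_mem 4))
    linarith
  · have := Pool.Agent.Lib_helper99.Transversal.Five.bound ((adm_iff _ _).1 (rho_mem 5))
    linarith

end Pool.Agent.Results.MP_05faf0_co.SmallK
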