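import Pool.Agent.OPT22.Fam

set_option autoImplicit false

namespace Pool.Agent.Results.MP_05faf0_co.UniformUpper

open Pool.Agent.OPT22

/-- Some line `{p + t v : t real}` (`v ≠ 0`) of the plane meets every set of the collection `G`. -/
def HasLineTransversal (G : Set (Set (ℝ × ℝ))) : Prop :=
  ∃ p v : ℝ × ℝ, v ≠ 0 ∧ ∀ A ∈ G, ∃ t : ℝ, p + t • v ∈ A

/-- The number `ρ` has the property that defines `ρ(k)`: for every finite family `F` of compact
convex sets in the plane such that each subfamily with at most `k` members has a line transversal,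
some subfamily `G` with `|G| ≥ ρ |F|` has a line transversal. -/
def Admissible (k : ℕ) (ρ : ℝ) : Prop :=
  ∀ F : Finset (Set (ℝ × ℝ)), (∀ A ∈ F, IsCompact A ∧ Convex ℝ A) →
    (∀ G ⊆ F, G.card ≤ k → HasLineTransversal (G : Set (Set (ℝ × ℝ)))) →
    ∃ G ⊆ F, ρ * (F.card : ℝ) ≤ (G.card : ℝ) ∧ HasLineTransversal (G : Set (Set (ℝ × ℝ)))

/-- The optimal fraction `ρ(k)`. -/
noncomputable def rho (k : ℕ) : ℝ := sSup {ρ : ℝ | Admissible k ρ}

theorem transversal_empty : HasLineTransversal ((∅ : Finset (Set (ℝ × ℝ))) : Set (Set (ℝ × ℝ))) :=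
  ⟨0, (1, 0), by simp, by simp⟩

theorem admissible_zero (k : ℕ) : Admissible k 0 := fun F _ _ =>
  ⟨∅, Finset.empty_subset _, by simp, transversal_empty⟩

/-- The bound from the family with `2h` members. -/
theorem bound_family {k h b : ℕ} {ρ : ℝ} (hh : 0 < h) (hb1 : 1 ≤ b) (hb2 : b ≤ h)
    (hb : k * (b + 1) < 3 * h) (hρ : Admissible k ρ) : ρ * (2 * h) ≤ 2 * h - b + 2 := by
  classical
  have : NeZero (2 * h) := ⟨by omega⟩
  have hinj := fam_injective hh hb1 hb2
  obtain ⟨G, hG, hcard, hT⟩ := hρ (Finset.univ.image (fam h b))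
    (by
      intro A hA
      obtain ⟨x, _, rfl⟩ := Finset.mem_image.1 hA
      exact ⟨seg_compact _ _ _, seg_convex _ _ _⟩)
    (by
      intro G hG hGk
      obtain ⟨K, _, rfl⟩ := Finset.subset_image_iff.1 hG
      rw [Finset.card_image_of_injective _ hinj] at hGk
      obtain ⟨ψ, c, hψ⟩ := fam_trans hh hb1 hb2 hb K hGk
      apply trans_of_meets ψ c
      intro A hA
      obtain ⟨x, hx, rfl⟩ := Finset.mem_image.1 (Finset.mem_coe.1 hA)
      exact hψ x hx)
  obtain ⟨K, _, rfl⟩ := Finset.subset_image_iff.1 hG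
  rw [Finset.card_image_of_injective _ hinj, Finset.card_image_of_injective _ hinj,
    Finset.card_univ, ZMod.card] at hcard
  obtain ⟨ψ, c, hc, hψ⟩ := meets_of_trans _ hT
  have h1 := fam_hits hh hb1 hb2 ψ c hc K
    (fun x hx => hψ _ (Finset.mem_coe.2 (Finset.mem_image_of_mem _ hx)))
  push_cast at hcard
  linarith

theorem admissible_le {k : ℕ} (hk : 3 ≤ k) {ρ : ℝ} (hρ : Admissible k ρ) :
    ρ ≤ 1 - 3 / (2 * k) := by
  have hk0 : (0 : ℝ) < k := by
    have : 0 < k := by omega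
    exact_mod_cast this
  by_contra hc
  push Not at hc
  set ε := ρ - (1 - 3 / (2 * k)) with hε
  have hε0 : 0 < ε := by linarith
  obtain ⟨q, hq⟩ := exists_nat_gt (2 / (k * ε))
  have hq0 : (0 : ℝ) < q := lt_of_le_of_lt (by positivity) hq
  have hq1 : 1 ≤ q := by exact_mod_cast hq0
  have h1 := bound_family (k := k) (h := k * q) (b := 3 * q - 2) (ρ := ρ) (by positivity)
    (by omega)
    (by
      have := Nat.mul_le_mul_right q hk
      omega)
    (by
      have e : 3 * q - 2 + 1 = 3 * q - 1 := by omega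
      rw [e]
      have : k * (3 * q - 1) < k * (3 * q) := Nat.mul_lt_mul_of_pos_left (by omega) (by omega)
      calc k * (3 * q - 1) < k * (3 * q) := this
        _ = 3 * (k * q) := by ring)
    hρ
  have e2 : ((3 * q - 2 : ℕ) : ℝ) = 3 * q - 2 := by
    rw [Nat.cast_sub (by omega)]; push_cast; ring
  rw [e2] at h1
  push_cast at h1
  have h2 : 2 < q * (k * ε) := by
    rw [div_lt_iff₀ (by positivity)] at hq
    exact hq
  have h3 : ρ = 1 - 3 / (2 * k) + ε := by rw [hε]; ring
  rw [h3] at h1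
  have h4 : (1 - 3 / (2 * k) + ε) * (2 * (k * q)) =
      2 * (k * q) - 3 * q + 2 * (q * (k * ε)) := by
    field_simp
  rw [h4] at h1
  linarith

theorem rho_isGreatest {k : ℕ} (hk : 3 ≤ k) : IsGreatest {ρ : ℝ | Admissible k ρ} (rho k) := by
  have hne : {ρ : ℝ | Admissible k ρ}.Nonempty := ⟨0, admissible_zero k⟩
  have hbdd : BddAbove {ρ : ℝ | Admissible k ρ} :=
    ⟨1 - 3 / (2 * k), fun ρ h => admissible_le hk h⟩
  refine ⟨?_, fun ρ hρ => le_csSup hbdd hρ⟩
  intro F hF hT
  classical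
  -- the largest partial transversal
  obtain ⟨G, hG, hmax⟩ := (F.powerset.filter
    (fun G : Finset (Set (ℝ × ℝ)) =>
      HasLineTransversal (G : Set (Set (ℝ × ℝ))))).exists_max_image
    (fun G => G.card) ⟨∅, Finset.mem_filter.2 ⟨Finset.empty_mem_powerset _, transversal_empty⟩⟩
  rw [Finset.mem_filter, Finset.mem_powerset] at hG
  refine ⟨G, hG.1, ?_, hG.2⟩
  rcases F.eq_empty_or_nonempty with rfl | hFne
  · simp
  · have hFpos : (0 : ℝ) < F.card := by exact_mod_cast hFne.card_pos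
    rw [← le_div_iff₀ hFpos]
    refine csSup_le hne fun ρ hρ => ?_
    obtain ⟨G', hG'1, hG'2, hG'3⟩ := hρ F hF hT
    rw [le_div_iff₀ hFpos]
    refine hG'2.trans ?_
    exact_mod_cast hmax G' (Finset.mem_filter.2 ⟨Finset.mem_powerset.2 hG'1, hG'3⟩)

/-- **A uniform upper bound for the optimal fraction.** For every `k ≥ 3` the largest admissible
fraction `ρ(k)` exists and `ρ(k) ≤ 1 - 3 / (2k)`. -/
theorem result : ∀ k : ℕ, 3 ≤ k →
    IsGreatest {ρ : ℝ | Admissible k ρ} (rho k) ∧ rho k ≤ 1 - 3 / (2 * (k : ℝ)) :=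
  fun _ hk => ⟨rho_isGreatest hk, admissible_le hk (rho_isGreatest hk).1⟩

end Pool.Agent.Results.MP_05faf0_co.UniformUpper
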